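import Pool.Agent.Helper77.SD.Final

/-!
# Superexponential decay for periodic elliptic operators: conformally product metrics (MP_93a5ff_an)

`E d` is `ℝ^d`; `WeakSol A W u`: there is `G` such that `u ∈ H¹_loc(ℝ^d)` with weak gradient `G`
(`WeakGrad u G`) and `∫ ⟨A G, ∇ψ⟩ = ∫ W u ψ` for all `ψ` smooth with compact support, i.e. `div (A ∇u) + W u = 0`.
`push Φ B c x v = c(x) |det DΦ(x)|⁻¹ DΦ(x) B(x) DΦ(x)ᵀ v`.

Let `B` be a continuous bounded field of symmetric uniformly elliptic matrices, invariant along the vector `l ≠ 0`, with `B η = l`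
constant (`ParallelMetric`); `c` an `l`-periodic `C¹` function between two positive constants with bounded gradient, `B ∇log c`
uniformly continuous (`ConfFactor`); `Φ` a `C¹` diffeomorphism (inverse `Ψ`), `DΦ`, `DΨ` bounded, `Φ(x+l) = Φ(x)+l'`
(`ChangeOfVar`).

For every `M` there are `δ > 0` and `C` such that for all measurable (not necessarily symmetric) `l'`-periodic `A` with
`|A(Φ x) - c(x) |det DΦ(x)|⁻¹ DΦ(x) B(x) DΦ(x)ᵀ| ≤ δ` and all measurable `l'`-periodic `W` with `|W| ≤ M` (`NearPush`): a weak solution `u` of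
`div (A ∇u) + W u = 0` with `e^{C|⟨η,Ψ(y)⟩|} u ∈ L²` vanishes.

For `ℤ^d`-periodic data all boundedness and uniformity assumptions hold, so for such `A` (and all bounded periodic `W`) the
question of the problem has a positive answer for every `γ > 1`, and even for solutions decaying like `e^{-C' |x|}`.
-/

set_option autoImplicit false

namespace Pool.Agent.Results.MP_93a5ff_an.ConformallyProduct

open Pool.Agent.Helper77.SDS

theorem result : ∀ (d : ℕ) (l l' η : E d) (B : E d → Op d) (c : E d → ℝ) (Φ Ψ : E d → E d) (M : ℝ),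
    ParallelMetric l η B → ConfFactor l B c → ChangeOfVar Φ Ψ l l' →
    ∃ δ C : ℝ, 0 < δ ∧ 0 < C ∧ ∀ (A : E d → Op d) (W : E d → ℝ), NearPush l' Φ B c δ M A W →
      ∀ u : E d → ℝ, WeakSol A W u → SqInt (fun y => Real.exp (C * |ip η (Ψ y)|) * u y) → AEZero u :=
  fun d l l' η B c Φ Ψ M hB hc hΦ => final_short d l l' η B c Φ Ψ M hB hc hΦ

end Pool.Agent.Results.MP_93a5ff_an.ConformallyProduct
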