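import Pool.Agent.Helper25.SE.Fin

set_option autoImplicit false

open scoped ContDiff

namespace Pool.Agent.Results.MP_93a5ff_an.GaussianSymmetric

/-- the derivative of `f` in the coordinate direction `i` -/
noncomputable def dd {d : ℕ} (i : Fin d) (f : (Fin d → ℝ) → ℝ) (x : Fin d → ℝ) : ℝ :=
  deriv (fun s : ℝ => f (Function.update x i s)) (x i)

open Pool.Agent.Helper25.SE in
/-- For every dimension `d = m + 3` and every `M` there is a smooth, symmetric, uniformly
elliptic operator `div (A grad u) + V u` with real coefficients periodic under the integer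
lattice, and a real smooth nonzero solution bounded by a Gaussian in the first two coordinates
and periodic in the other coordinates. -/
theorem result (m : ℕ) (M : ℝ) :
    ∃ (A : Fin (m + 3) → Fin (m + 3) → (Fin (m + 3) → ℝ) → ℝ) (V u : (Fin (m + 3) → ℝ) → ℝ),
      (∀ i j, ContDiff ℝ ∞ (A i j)) ∧ ContDiff ℝ ∞ V ∧ ContDiff ℝ ∞ u ∧
      (∀ i j x, A i j x = A j i x) ∧
      (∀ i j (g : Fin (m + 3) → ℤ) x, A i j (fun l => x l + g l) = A i j x) ∧
      (∀ (g : Fin (m + 3) → ℤ) x, V (fun l => x l + g l) = V x) ∧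
      (∃ lam : ℝ, 0 < lam ∧ ∀ x xi : Fin (m + 3) → ℝ,
        lam * ∑ i, xi i ^ 2 ≤ ∑ i, ∑ j, A i j x * xi j * xi i) ∧
      (∀ x, ∑ i, dd i (fun y => ∑ j, A i j y * dd j u y) x + V x * u x = 0) ∧
      (∃ x, u x ≠ 0) ∧
      (∀ x, |u x| ≤ Real.exp (-(M * (1 + x 0 ^ 2 + x 1 ^ 2)))) ∧
      (∀ (g : Fin (m + 3) → ℤ) x, g 0 = 0 → g 1 = 0 → u (fun l => x l + g l) = u x) := by
  obtain ⟨K, lc, lam, E⟩ := ex_sym
  obtain ⟨n, h1, hs, h2, h3, h4, h5, ⟨mu, h6, h6'⟩, h7, h8, h9, h10⟩ := transfer m E M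
  have hc : (0 : ℝ) < Real.exp (-M) := Real.exp_pos _
  refine ⟨AA (n : ℝ) (aM K), fun x => (n : ℝ) ^ 2 * Li n (VB K) x,
    fun x => Real.exp (-M) * Li n (U1 lc) x, h1, h2, contDiff_const.mul h3, hs, h4, h5,
    ⟨mu, h6, ?_⟩, ?_, ?_, ?_, ?_⟩
  · intro x xi
    refine (h6' x xi).trans (le_of_eq ?_)
    exact Finset.sum_congr rfl fun i _ => Finset.sum_mul _ _ _
  · intro x
    have e1 : ∀ (j : Fin (m + 3)) (y : Fin (m + 3) → ℝ),
        dd j (fun x => Real.exp (-M) * Li n (U1 lc) x) y = Real.exp (-M) * pd j (Li n (U1 lc)) y :=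
      fun j y => pd_const_mul j _ _ y
    have e2 : ∀ i : Fin (m + 3), dd i (fun y => ∑ j, AA (n : ℝ) (aM K) i j y *
        dd j (fun x => Real.exp (-M) * Li n (U1 lc) x) y) x
        = Real.exp (-M) * pd i (fun y => ∑ j, AA (n : ℝ) (aM K) i j y * pd j (Li n (U1 lc)) y) x := by
      intro i
      rw [← pd_const_mul]
      have ef : (fun y => ∑ j, AA (n : ℝ) (aM K) i j y *
          dd j (fun x => Real.exp (-M) * Li n (U1 lc) x) y)
          = fun y => Real.exp (-M) * ∑ j, AA (n : ℝ) (aM K) i j y * pd j (Li n (U1 lc)) y := by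
        funext y
        rw [Finset.mul_sum]
        refine Finset.sum_congr rfl fun j _ => ?_
        rw [e1]; ring
      rw [ef]
      rfl
    rw [Finset.sum_congr rfl fun i _ => e2 i, ← Finset.mul_sum]
    linear_combination Real.exp (-M) * h7 x
  · obtain ⟨x, hx⟩ := h8
    exact ⟨x, mul_ne_zero hc.ne' hx⟩
  · intro x
    beta_reduce
    rw [abs_mul, abs_of_pos hc]
    have := mul_le_mul_of_nonneg_left (h9 x) hc.le
    refine this.trans (le_of_eq ?_)
    rw [← Real.exp_add]; congr 1; ring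
  · intro g x g0 g1
    beta_reduce
    rw [h10 g x g0 g1]

end Pool.Agent.Results.MP_93a5ff_an.GaussianSymmetric
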